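import Pool.Agent.Work.MAC67.Upper
import Pool.Agent.Work.MAC67.Seven

namespace Pool.Agent.Results.MP_2c026b_lc.LowerBound

open Pool.Agent.Work.MAC67

/-- The lower bound `ℓ_n ≤ z_n^*` for every number `n ≥ 3` of users; it is the exact value
`z_n^* = z_n` for `n = 5` and `n = 7`. -/
theorem result : ∀ n : ℕ, 3 ≤ n →
    ENNReal.ofReal (ell n) ≤ zStar n ∧
      (n = 5 ∨ n = 7 → zStar n = ENNReal.ofReal (z n)) := by
  intro n hn
  refine ⟨ell_le_zStar hn, ?_⟩
  rintro (rfl | rfl)
  · apply le_antisymm (zStar_le (by norm_num))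
    rw [← ell_five]
    exact ell_le_zStar (by norm_num)
  · apply le_antisymm (zStar_le (by norm_num))
    rw [← ell_seven]
    exact ell_le_zStar (by norm_num)

end Pool.Agent.Results.MP_2c026b_lc.LowerBound
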